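import Pool.Agent.Helper47.ER.Goals

set_option autoImplicit false
set_option linter.unusedSectionVars false

/-!
Packet ER-FXC: the number of the fixed vectors of a monomial map.
-/

namespace Pool.Agent.Helper24.ER.FXC

open Pool.Agent.Helper47.EP (Dat)
open Pool.Agent.Helper47.ER

section pot

variable {A : Type} [Fintype A] {p : ℕ} (g : Equiv.Perm A) (j : A → ZMod p)

/-- the sum of `j` along a piece of an orbit -/
def S (i : ℕ) (b : A) : ZMod p := ∑ s ∈ Finset.range i, j ((g ^ (s + 1)) b)

theorem S_zero (b : A) : S g j 0 b = 0 := by simp [S]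

theorem S_succ (i : ℕ) (b : A) : S g j (i + 1) b = S g j i b + j ((g ^ (i + 1)) b) := by
  unfold S
  rw [Finset.sum_range_succ]

theorem S_add (i k : ℕ) (b : A) : S g j (i + k) b = S g j i b + S g j k ((g ^ i) b) := by
  induction k with
  | zero => simp [S_zero]
  | succ k ih =>
    rw [← add_assoc, S_succ, ih, S_succ, add_assoc]
    congr 3
    rw [← Equiv.Perm.mul_apply, ← pow_add]
    congr 2
    omega

/-- the orbit of a point -/
abbrev orb (b : A) : Quotient (Equiv.Perm.SameCycle.setoid g) :=
  Quotient.mk (Equiv.Perm.SameCycle.setoid g) b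

open Classical in
/-- the sum of `j` on an orbit -/
noncomputable def J (o : Quotient (Equiv.Perm.SameCycle.setoid g)) : ZMod p :=
  ∑ a ∈ Finset.univ.filter (fun a => (Quotient.mk (Equiv.Perm.SameCycle.setoid g) a) = o), j a

theorem orb_pow (i : ℕ) (b : A) : orb g ((g ^ i) b) = orb g b := by
  apply Quotient.sound
  show g.SameCycle ((g ^ i) b) b
  exact (Equiv.Perm.sameCycle_pow_left (n := i)).mpr (Equiv.Perm.SameCycle.refl g b)

theorem exists_pow {a b : A} (h : orb g a = orb g b) : ∃ i : ℕ, (g ^ i) b = a := by
  have h1 : g.SameCycle b a := (Quotient.exact h : g.SameCycle a b).symm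
  exact h1.exists_nat_pow_eq

theorem J_eq (b : A) : S g j (Function.minimalPeriod g b) b = J g j (orb g b) := by
  classical
  set n := Function.minimalPeriod g b with hn
  have hpos : 0 < n := by
    apply Function.minimalPeriod_pos_of_mem_periodicPts
    exact Function.Injective.mem_periodicPts g.injective b
  unfold S J
  symm
  have himg : (Finset.univ.filter (fun a => (Quotient.mk (Equiv.Perm.SameCycle.setoid g) a)
      = orb g b)) = (Finset.range n).image fun s => (g ^ (s + 1)) b := by
    ext a
    simp only [Finset.mem_filter, Finset.mem_univ, true_and, Finset.mem_image, Finset.mem_range]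
    constructor
    · intro h
      obtain ⟨i, hi⟩ := exists_pow g (show orb g a = orb g b from h)
      rw [Equiv.Perm.coe_pow] at hi
      -- choose the residue in 1..n
      refine ⟨(i + n - 1) % n, Nat.mod_lt _ hpos, ?_⟩
      have e : ((i + n - 1) % n + 1) % n = i % n := by
        rw [Nat.mod_add_mod]
        have : i + n - 1 + 1 = i + n := by omega
        rw [this, Nat.add_mod_right]
      have h1 : g^[((i + n - 1) % n + 1)] b = a := by
        calc g^[((i + n - 1) % n + 1)] b = g^[((i + n - 1) % n + 1) % n] b :=
              Function.iterate_mod_minimalPeriod_eq.symm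
          _ = g^[i % n] b := by rw [e]
          _ = g^[i] b := Function.iterate_mod_minimalPeriod_eq
          _ = a := hi
      rw [Equiv.Perm.coe_pow]
      exact h1
    · rintro ⟨s, -, rfl⟩
      exact orb_pow g (s + 1) b
  rw [himg, Finset.sum_image]
  intro s hs s' hs' h
  have h1 : (g ^ s) b = (g ^ s') b := by
    have h2 : g ((g ^ s) b) = g ((g ^ s') b) := by
      have h3 := h
      simp only [pow_succ', Equiv.Perm.mul_apply] at h3
      exact h3
    exact g.injective h2
  rw [Equiv.Perm.coe_pow, Equiv.Perm.coe_pow] at h1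
  have h4 := Function.iterate_injOn_Iio_minimalPeriod (f := g) (x := b)
    (show s ∈ Set.Iio _ from by simpa using hs) (show s' ∈ Set.Iio _ from by simpa using hs') h1
  exact h4

theorem S_period (b : A) (m : ℕ) :
    S g j (Function.minimalPeriod g b * m) b = m • J g j (orb g b) := by
  induction m with
  | zero => simp [S_zero]
  | succ m ih =>
    have h1 : (g ^ (Function.minimalPeriod g b * m)) b = b := by
      rw [Equiv.Perm.coe_pow]
      exact (Function.isPeriodicPt_minimalPeriod g b).mul_const m
    rw [Nat.mul_succ, S_add, ih, h1, J_eq, succ_nsmul]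

theorem S_congr {b : A} (h0 : J g j (orb g b) = 0) {i k : ℕ} (h : (g ^ i) b = (g ^ k) b) :
    S g j i b = S g j k b := by
  have key : ∀ i r : ℕ, (g ^ i) b = (g ^ (i + r)) b → S g j i b = S g j (i + r) b := by
    intro i r h
    rw [S_add]
    have h1 : Function.IsPeriodicPt g r ((g ^ i) b) := by
      show g^[r] ((g ^ i) b) = (g ^ i) b
      rw [← Equiv.Perm.coe_pow, ← Equiv.Perm.mul_apply, ← pow_add, add_comm r i]
      exact h.symm
    obtain ⟨m, hm⟩ := h1.minimalPeriod_dvd
    rw [hm, S_period, orb_pow, h0, smul_zero, add_zero]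
  rcases le_total i k with hik | hik
  · obtain ⟨r, rfl⟩ := Nat.exists_eq_add_of_le hik
    exact key i r h
  · obtain ⟨r, rfl⟩ := Nat.exists_eq_add_of_le hik
    exact (key k r h.symm).symm

/-- the potential -/
noncomputable def q (a : A) : ZMod p :=
  S g j (Classical.choose (exists_pow g (show orb g a = orb g (Quotient.out (orb g a)) from
    (Quotient.out_eq (orb g a)).symm))) (Quotient.out (orb g a))

theorem q_spec {a : A} (h0 : J g j (orb g a) = 0) {i : ℕ}
    (h : (g ^ i) (Quotient.out (orb g a)) = a) : q g j a = S g j i (Quotient.out (orb g a)) := by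
  have h1 := Classical.choose_spec (exists_pow g (show orb g a = orb g (Quotient.out (orb g a))
    from (Quotient.out_eq (orb g a)).symm))
  apply S_congr
  · have : orb g (Quotient.out (orb g a)) = orb g a := Quotient.out_eq (orb g a)
    rw [this]
    exact h0
  · rw [h]
    exact h1

theorem q_step {a : A} (h0 : J g j (orb g a) = 0) : q g j (g a) = q g j a + j (g a) := by
  obtain ⟨i, hi⟩ := exists_pow g (show orb g a = orb g (Quotient.out (orb g a)) from
    (Quotient.out_eq (orb g a)).symm)
  have he : orb g (g a) = orb g a := by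
    have := orb_pow g 1 a
    rwa [pow_one] at this
  have h1 : (g ^ (i + 1)) (Quotient.out (orb g (g a))) = g a := by
    rw [he, pow_succ', Equiv.Perm.mul_apply, hi]
  rw [q_spec g j (by rw [he]; exact h0) h1, q_spec g j h0 hi, he, S_succ]
  congr 2
  rw [pow_succ', Equiv.Perm.mul_apply, hi]

theorem q_out (o : Quotient (Equiv.Perm.SameCycle.setoid g)) (h0 : J g j o = 0) :
    q g j (Quotient.out o) = 0 := by
  have he : orb g (Quotient.out o) = o := Quotient.out_eq o
  rw [q_spec g j (i := 0) (by rw [he]; exact h0) (by rw [he]; rfl), S_zero]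

end pot

theorem fixed_pow {A : Type} [Fintype A] {p : ℕ} (T : Dat p) (g : Equiv.Perm A) (j : A → ZMod p)
    (v : A → T.K) (hv : ∀ a, T.t (j a) (v (g⁻¹ a)) = v a) (i : ℕ) (b : A) :
    v ((g ^ i) b) = T.t (S g j i b) (v b) := by
  induction i with
  | zero => rw [S_zero, T.t_zero]; rfl
  | succ i ih =>
    rw [S_succ, add_comm (S g j i b), T.t_add, ← ih, ← hv ((g ^ (i + 1)) b)]
    congr 2
    rw [pow_succ', Equiv.Perm.mul_apply]
    exact g.symm_apply_apply _

theorem t : S_FXC := by
  classical
  intro p _ T A _ _ g j
  set Z := {o : Quotient (Equiv.Perm.SameCycle.setoid g) // J g j o = 0} with hZ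
  have hzo : zo g j = Nat.card Z := rfl
  let Φ : {v : A → T.K // ∀ a, T.t (j a) (v (g⁻¹ a)) = v a} → (Z → T.K) :=
    fun v o => v.1 (Quotient.out o.1)
  have hΦ : Function.Bijective Φ := by
    constructor
    · rintro ⟨v, hv⟩ ⟨v', hv'⟩ h
      apply Subtype.ext
      funext a
      show v a = v' a
      by_cases h0 : J g j (orb g a) = 0
      · obtain ⟨i, hi⟩ := exists_pow g (show orb g a = orb g (Quotient.out (orb g a)) from
          (Quotient.out_eq (orb g a)).symm)
        have h1 := fixed_pow T g j v hv i (Quotient.out (orb g a))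
        have h2 := fixed_pow T g j v' hv' i (Quotient.out (orb g a))
        rw [hi] at h1 h2
        rw [h1, h2]
        have h3 : v (Quotient.out (orb g a)) = v' (Quotient.out (orb g a)) :=
          congrFun h ⟨orb g a, h0⟩
        rw [h3]
      · have hper : (g ^ (Function.minimalPeriod g a)) a = a := by
          rw [Equiv.Perm.coe_pow]
          exact Function.isPeriodicPt_minimalPeriod g a
        have h1 := fixed_pow T g j v hv (Function.minimalPeriod g a) a
        have h2 := fixed_pow T g j v' hv' (Function.minimalPeriod g a) a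
        rw [hper, J_eq] at h1 h2
        rw [T.inj _ h0 _ h1.symm, T.inj _ h0 _ h2.symm]
    · intro y
      let v : A → T.K := fun a =>
        if h : J g j (orb g a) = 0 then T.t (q g j a) (y ⟨orb g a, h⟩) else 0
      have hv : ∀ a, T.t (j a) (v (g⁻¹ a)) = v a := by
        intro a
        have he : orb g (g⁻¹ a) = orb g a := by
          have := orb_pow g 1 (g⁻¹ a)
          rw [pow_one] at this
          have h5 : g (g⁻¹ a) = a := g.apply_symm_apply a
          rw [h5] at this
          exact this.symm
        by_cases h0 : J g j (orb g a) = 0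
        · have h0' : J g j (orb g (g⁻¹ a)) = 0 := by rw [he]; exact h0
          have e1 : v (g⁻¹ a) = T.t (q g j (g⁻¹ a)) (y ⟨orb g (g⁻¹ a), h0'⟩) := dif_pos h0'
          have e2 : v a = T.t (q g j a) (y ⟨orb g a, h0⟩) := dif_pos h0
          have e3 : (⟨orb g (g⁻¹ a), h0'⟩ : Z) = ⟨orb g a, h0⟩ := Subtype.ext he
          rw [e1, e2, e3, ← T.t_add]
          have e4 := q_step g j h0'
          have h5 : g (g⁻¹ a) = a := g.apply_symm_apply a
          rw [h5] at e4
          rw [e4, add_comm]
        · have h0' : ¬ J g j (orb g (g⁻¹ a)) = 0 := by rw [he]; exact h0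
          have e1 : v (g⁻¹ a) = 0 := dif_neg h0'
          have e2 : v a = 0 := dif_neg h0
          rw [e1, e2, map_zero]
      refine ⟨⟨v, hv⟩, ?_⟩
      funext o
      obtain ⟨o, ho⟩ := o
      have he : orb g (Quotient.out o) = o := Quotient.out_eq o
      have h0 : J g j (orb g (Quotient.out o)) = 0 := by rw [he]; exact ho
      have e1 : v (Quotient.out o) = T.t (q g j (Quotient.out o)) (y ⟨orb g (Quotient.out o), h0⟩) :=
        dif_pos h0
      have e3 : (⟨orb g (Quotient.out o), h0⟩ : Z) = ⟨o, ho⟩ := Subtype.ext he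
      show v (Quotient.out o) = y ⟨o, ho⟩
      rw [e1, q_out g j o ho, T.t_zero, e3]
  rw [Nat.card_congr (Equiv.ofBijective Φ hΦ), hzo, Nat.card_fun, Nat.card_eq_fintype_card, T.card,
    ← pow_mul]

end Pool.Agent.Helper24.ER.FXC
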